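import Mathlib
import Pool.Agent.Run7.h757.BP.Stm

/-!
Project BP, piece FM (helper994), part a: the sum of triangle functions, the bound in one cell.
-/

set_option autoImplicit false

namespace Run7.h994.BP

open Finset Filter Topology
open Pool.Agent.H469R2.NK (e)
open Pool.Agent.N792 (Vc V1 tri triC)
open Run7.h757.BP

/-- truncation to `[0, 1]` -/
noncomputable def gg (x : ℝ) : ℝ := max 0 (min x 1)

lemma gg_nonneg (x : ℝ) : 0 ≤ gg x := le_max_left _ _

lemma gg_le_one (x : ℝ) : gg x ≤ 1 := max_le zero_le_one (min_le_right _ _)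

lemma gg_zero : gg 0 = 0 := by simp [gg]

lemma gg_one {x : ℝ} (hx : 1 ≤ x) : gg x = 1 := by simp [gg, min_eq_right hx]

lemma hat_eq (y : ℝ) : max 0 (1 - |y|) = gg (y + 1) - gg y := by
  unfold gg
  rcases le_total 0 y with h | h
  · rw [abs_of_nonneg h, min_eq_right (by linarith : 1 ≤ y + 1), max_eq_right (by norm_num : (0:ℝ) ≤ 1)]
    rcases le_total y 1 with h1 | h1
    · rw [min_eq_left h1, max_eq_right h, max_eq_right (by linarith)]
    · rw [min_eq_right h1, max_eq_right (by norm_num : (0:ℝ) ≤ 1), max_eq_left (by linarith)]; norm_num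
  · rw [abs_of_nonpos h, min_eq_left (by linarith : y + 1 ≤ 1), min_eq_left (by linarith : y ≤ 1),
      max_eq_left h]
    rw [sub_zero]
    congr 1
    ring

lemma tri_hat {δ : ℝ} (hδ : 0 < δ) (θ : ℝ) (k j : ℕ) (hj : j < k) (hk : ((k : ℝ) + 1) * δ ≤ 1 / 2) :
    tri δ (θ + -((j + 1 : ℝ) * δ)) = gg (Int.fract θ / δ - j) - gg (Int.fract θ / δ - (j + 1)) := by
  have hjr : (j : ℝ) + 1 ≤ k := by exact_mod_cast hj
  have hf0 := Int.fract_nonneg θ
  have hf1 := Int.fract_lt_one θ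
  obtain ⟨φ, hφ⟩ : ∃ φ, φ = Int.fract θ := ⟨_, rfl⟩
  rw [← hφ] at hf0 hf1 ⊢
  have h1 : θ + -((j + 1 : ℝ) * δ) = (φ - (j + 1) * δ) + ((⌊θ⌋ : ℤ) : ℝ) := by
    have := Int.floor_add_fract θ
    rw [← hφ] at this
    linarith
  have hx0 : -(1 / 2) + δ ≤ φ - (j + 1) * δ := by
    have : (j + 1 : ℝ) * δ ≤ k * δ := by gcongr
    linarith
  have hx1 : φ - (j + 1) * δ < 1 - δ := by
    have h0 : (0 : ℝ) ≤ j := Nat.cast_nonneg _
    have : δ ≤ (j + 1 : ℝ) * δ := by nlinarith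
    linarith
  have h2 : gg (φ / δ - j) - gg (φ / δ - (j + 1)) = max 0 (1 - |φ - (j + 1) * δ| / δ) := by
    have h3 := hat_eq (φ / δ - (j + 1))
    have h4 : φ / δ - (j + 1) + 1 = φ / δ - j := by ring
    rw [h4] at h3
    rw [← h3]
    congr 2
    have h5 : φ / δ - (j + 1) = (φ - (j + 1) * δ) / δ := by field_simp
    rw [h5, abs_div, abs_of_pos hδ]
  rw [h1, h2]
  unfold Pool.Agent.N792.tri
  rw [round_add_intCast]
  push_cast
  have h6 : φ - (j + 1) * δ + ((⌊θ⌋ : ℤ) : ℝ) - ((round (φ - (j + 1) * δ) : ℝ) + ((⌊θ⌋ : ℤ) : ℝ)) =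
      (φ - (j + 1) * δ) - (round (φ - (j + 1) * δ) : ℝ) := by ring
  rw [h6]
  obtain ⟨x, hx⟩ : ∃ x, x = φ - (j + 1) * δ := ⟨_, rfl⟩
  rw [← hx] at hx0 hx1 ⊢
  have hδ2 : δ ≤ 1 / 2 := by
    have h0 : (0 : ℝ) ≤ k := Nat.cast_nonneg _
    nlinarith
  by_cases hc : x < 1 / 2
  · have h7 : round x = 0 := by
      rw [round_eq_zero_iff]
      exact ⟨by linarith, hc⟩
    rw [h7]
    simp
  · push Not at hc
    have h7 : round x = 1 := by
      rw [round_eq, Int.floor_eq_iff]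
      constructor
      · push_cast; linarith
      · push_cast; linarith
    rw [h7]
    have h8 : |x - ((1 : ℤ) : ℝ)| = 1 - x := by
      rw [abs_of_nonpos (by push_cast; linarith)]
      push_cast; ring
    rw [h8, abs_of_nonneg (by linarith), max_eq_left, max_eq_left]
    · have : 1 ≤ x / δ := by rw [le_div_iff₀ hδ]; linarith
      linarith
    · have : 1 ≤ (1 - x) / δ := by rw [le_div_iff₀ hδ]; linarith
      linarith

/-- the sum of the triangle functions is at most the indicator function of the fractional part in `(0, (k+1) δ)` -/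
lemma sum_tri_le {δ : ℝ} (hδ : 0 < δ) (θ : ℝ) (k : ℕ) (hk : ((k : ℝ) + 1) * δ ≤ 1 / 2) :
    ∑ j ∈ range k, tri δ (θ + -((j + 1 : ℝ) * δ)) ≤
      if (0 < Int.fract θ ∧ Int.fract θ < ((k : ℝ) + 1) * δ) then 1 else 0 := by
  have h1 : ∑ j ∈ range k, tri δ (θ + -((j + 1 : ℝ) * δ)) =
      gg (Int.fract θ / δ) - gg (Int.fract θ / δ - k) := by
    calc ∑ j ∈ range k, tri δ (θ + -((j + 1 : ℝ) * δ))
        = ∑ j ∈ range k, (gg (Int.fract θ / δ - (j : ℕ)) - gg (Int.fract θ / δ - ((j + 1 : ℕ) : ℝ))) := by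
          apply Finset.sum_congr rfl
          intro j hj
          rw [Finset.mem_range] at hj
          rw [tri_hat hδ θ k j hj hk]
          push_cast
          rfl
      _ = _ := by
          rw [Finset.sum_range_sub' (fun j : ℕ => gg (Int.fract θ / δ - (j : ℕ))) k]
          simp
  rw [h1]
  split_ifs with hc
  · linarith [gg_le_one (Int.fract θ / δ), gg_nonneg (Int.fract θ / δ - k)]
  · rw [not_and_or] at hc
    rcases hc with hc | hc
    · have : Int.fract θ = 0 := le_antisymm (not_lt.mp hc) (Int.fract_nonneg θ)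
      rw [this, zero_div, gg_zero]
      linarith [gg_nonneg (0 - (k : ℝ))]
    · push Not at hc
      have h2 : (k : ℝ) + 1 ≤ Int.fract θ / δ := by rw [le_div_iff₀ hδ]; exact hc
      rw [gg_one (by linarith : (1 : ℝ) ≤ Int.fract θ / δ - k)]
      linarith [gg_le_one (Int.fract θ / δ)]

/-- `p` is a prime `n² + a` -/
def IsPS (N A p : ℕ) : Prop := p.Prime ∧ ∃ n ∈ Icc 1 N, ∃ a ∈ Icc 1 A, p = n ^ 2 + a

open Classical in
/-- the primes `n² + a` -/
noncomputable def PS (N A : ℕ) : Finset ℕ := (Ioc 0 (N ^ 2)).filter (fun p => IsPS N A p)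

lemma mem_PS {N A p : ℕ} : p ∈ PS N A ↔
    (0 < p ∧ p ≤ N ^ 2) ∧ p.Prime ∧ ∃ n ∈ Icc 1 N, ∃ a ∈ Icc 1 A, p = n ^ 2 + a := by
  classical
  unfold PS
  rw [Finset.mem_filter, Finset.mem_Ioc]
  rfl

lemma card_PS (N A : ℕ) : ((PS N A).card : ℝ) ≤ ∑ a ∈ Icc 1 A, (P (a : ℕ) N : ℝ) := by
  classical
  have h1 : PS N A ⊆ (Icc 1 A).biUnion (fun a : ℕ =>
      ((Icc 1 N).filter (fun n : ℕ => Nat.Prime ((n : ℤ) ^ 2 + ((a : ℕ) : ℤ)).natAbs)).image (fun n => n ^ 2 + a)) := by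
    intro p hp
    rw [mem_PS] at hp
    obtain ⟨_, hp, n, hn, a, ha, rfl⟩ := hp
    rw [Finset.mem_biUnion]
    refine ⟨a, ha, ?_⟩
    rw [Finset.mem_image]
    refine ⟨n, ?_, rfl⟩
    rw [Finset.mem_filter]
    refine ⟨hn, ?_⟩
    have : ((n : ℤ) ^ 2 + (a : ℤ)).natAbs = n ^ 2 + a := by
      have h2 : ((n : ℤ) ^ 2 + (a : ℤ)) = ((n ^ 2 + a : ℕ) : ℤ) := by push_cast; rfl
      rw [h2, Int.natAbs_natCast]
    rw [this]
    exact hp
  have h2 : (PS N A).card ≤ ∑ a ∈ Icc 1 A, P (a : ℕ) N := by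
    refine (Finset.card_le_card h1).trans (Finset.card_biUnion_le.trans ?_)
    apply Finset.sum_le_sum
    intro a _
    unfold P
    exact Finset.card_image_le
  exact_mod_cast h2

lemma log_PS (N A : ℕ) (hN : 1 ≤ N) :
    ∑ p ∈ PS N A, Real.log p ≤ 2 * Real.log N * ∑ a ∈ Icc 1 A, (P (a : ℕ) N : ℝ) := by
  have hlog : 0 ≤ Real.log N := Real.log_nonneg (by exact_mod_cast hN)
  calc ∑ p ∈ PS N A, Real.log p ≤ ∑ p ∈ PS N A, 2 * Real.log N := by
        apply Finset.sum_le_sum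
        intro p hp
        rw [mem_PS] at hp
        have h1 : (p : ℝ) ≤ (N : ℝ) ^ 2 := by exact_mod_cast hp.1.2
        have h2 : (0 : ℝ) < p := by exact_mod_cast hp.1.1
        calc Real.log p ≤ Real.log ((N : ℝ) ^ 2) := Real.log_le_log h2 h1
          _ = 2 * Real.log N := by rw [Real.log_pow]; norm_num
    _ = 2 * Real.log N * (PS N A).card := by rw [Finset.sum_const, nsmul_eq_mul]; ring
    _ ≤ _ := by
        apply mul_le_mul_of_nonneg_left (card_PS N A) (by positivity)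

lemma mem_PS_of_fract {N A r p : ℕ} (hr : r ≤ N) (hp : p.Prime) (hpr : p ≤ r ^ 2)
    (h0 : 0 < Int.fract (√(p : ℝ))) (h1 : Int.fract (√(p : ℝ)) < (A : ℝ) / (2 * r)) : p ∈ PS N A := by
  have hp0 : 0 < p := hp.pos
  have hr0 : 0 < r := by
    by_contra hcon
    have : r = 0 := by omega
    subst this
    simp at hpr
    omega
  have hr0' : (0 : ℝ) < r := by exact_mod_cast hr0
  have hfl : Int.fract (√(p : ℝ)) = √(p : ℝ) - (Nat.sqrt p : ℝ) := by
    rw [Int.fract, Real.floor_real_sqrt_eq_nat_sqrt]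
    push_cast
    rfl
  rw [hfl] at h0 h1
  obtain ⟨n, hn⟩ : ∃ n, n = Nat.sqrt p := ⟨_, rfl⟩
  rw [← hn] at h0 h1
  have hs : √(p : ℝ) ^ 2 = p := Real.sq_sqrt (Nat.cast_nonneg _)
  have hsr : √(p : ℝ) ≤ r := by
    rw [Real.sqrt_le_left hr0'.le]
    exact_mod_cast hpr
  have hn1 : 1 ≤ n := by
    rw [hn]
    exact Nat.le_sqrt.mpr (by omega)
  have hn2 : n ≤ r := by
    rw [hn]
    calc Nat.sqrt p ≤ Nat.sqrt (r ^ 2) := Nat.sqrt_le_sqrt hpr
      _ = r := Nat.sqrt_eq' r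
  have hnp : n ^ 2 < p := by
    have h2 : ((n : ℝ)) ^ 2 < p := by
      rw [← hs]
      have : (0 : ℝ) ≤ n := Nat.cast_nonneg _
      nlinarith
    exact_mod_cast h2
  rw [mem_PS]
  refine ⟨⟨hp0, hpr.trans (Nat.pow_le_pow_left hr 2)⟩, hp, n, ?_, p - n ^ 2, ?_, by omega⟩
  · rw [Finset.mem_Icc]
    exact ⟨hn1, hn2.trans hr⟩
  · rw [Finset.mem_Icc]
    refine ⟨by omega, ?_⟩
    have h3 : ((p - n ^ 2 : ℕ) : ℝ) ≤ A := by
      rw [Nat.cast_sub hnp.le]
      push_cast
      rw [lt_div_iff₀ (by positivity)] at h1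
      have h4 : (n : ℝ) ≤ √(p : ℝ) := by linarith
      calc (p : ℝ) - (n : ℝ) ^ 2 = √(p : ℝ) ^ 2 - (n : ℝ) ^ 2 := by rw [hs]
        _ = (√(p : ℝ) - n) * (√(p : ℝ) + n) := by ring
        _ ≤ (√(p : ℝ) - n) * (r + r) := by
            apply mul_le_mul_of_nonneg_left _ h0.le
            linarith
        _ = (√(p : ℝ) - n) * (2 * r) := by ring
        _ ≤ A := h1.le
    exact_mod_cast h3

open Classical in
lemma cell_bound (k A N r X : ℕ) (δ η₁ C₀ : ℝ) (hr : r ≤ N) (hδ : 0 < δ)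
    (hk : ((k : ℝ) + 1) * δ = (A : ℝ) / (2 * r)) (hk2 : ((k : ℝ) + 1) * δ ≤ 1 / 2)
    (hT : ∀ t : ℝ, |∑ v ∈ Ioc X (r ^ 2), ArithmeticFunction.vonMangoldt v * tri δ (√(v : ℝ) + t) -
      δ * ∑ v ∈ Ioc X (r ^ 2), ArithmeticFunction.vonMangoldt v| ≤ η₁ * (δ * X))
    (hC₀ : ∀ x : ℝ, Chebyshev.psi x - Chebyshev.theta x ≤ C₀ * x.sqrt) (hC₀' : 0 ≤ C₀) :
    k * (δ * ∑ v ∈ Ioc X (r ^ 2), ArithmeticFunction.vonMangoldt v - η₁ * (δ * X)) - C₀ * N ≤
      ∑ p ∈ Ioc X (r ^ 2), if p ∈ PS N A then Real.log p else 0 := by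
  set W := ∑ v ∈ Ioc X (r ^ 2), ArithmeticFunction.vonMangoldt v with hW
  have h1 : k * (δ * W - η₁ * (δ * X)) ≤
      ∑ j ∈ range k, ∑ v ∈ Ioc X (r ^ 2), ArithmeticFunction.vonMangoldt v *
        tri δ (√(v : ℝ) + -((j + 1 : ℝ) * δ)) := by
    calc k * (δ * W - η₁ * (δ * X)) = ∑ j ∈ range k, (δ * W - η₁ * (δ * X)) := by
          rw [Finset.sum_const, Finset.card_range, nsmul_eq_mul]
      _ ≤ _ := by
          apply Finset.sum_le_sum
          intro j _
          have h2 := (abs_le.mp (hT (-((j + 1 : ℝ) * δ)))).1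
          linarith
  have h2 : ∑ j ∈ range k, ∑ v ∈ Ioc X (r ^ 2), ArithmeticFunction.vonMangoldt v *
        tri δ (√(v : ℝ) + -((j + 1 : ℝ) * δ)) =
      ∑ v ∈ Ioc X (r ^ 2), ArithmeticFunction.vonMangoldt v *
        ∑ j ∈ range k, tri δ (√(v : ℝ) + -((j + 1 : ℝ) * δ)) := by
    rw [Finset.sum_comm]
    apply Finset.sum_congr rfl
    intro v _
    rw [Finset.mul_sum]
  rw [h2] at h1
  have h3 : ∑ v ∈ Ioc X (r ^ 2), ArithmeticFunction.vonMangoldt v *
        ∑ j ∈ range k, tri δ (√(v : ℝ) + -((j + 1 : ℝ) * δ)) ≤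
      ∑ v ∈ Ioc X (r ^ 2), ((if v ∈ PS N A then Real.log v else 0) +
        (if ¬ v.Prime then ArithmeticFunction.vonMangoldt v else 0)) := by
    apply Finset.sum_le_sum
    intro v hv
    rw [Finset.mem_Ioc] at hv
    have hv0 : (0 : ℝ) ≤ Real.log v := Real.log_natCast_nonneg v
    have h4 := sum_tri_le hδ (√(v : ℝ)) k hk2
    have hL := ArithmeticFunction.vonMangoldt_nonneg (n := v)
    calc ArithmeticFunction.vonMangoldt v * ∑ j ∈ range k, tri δ (√(v : ℝ) + -((j + 1 : ℝ) * δ))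
        ≤ ArithmeticFunction.vonMangoldt v *
          (if (0 < Int.fract (√(v : ℝ)) ∧ Int.fract (√(v : ℝ)) < ((k : ℝ) + 1) * δ) then 1 else 0) := by
          apply mul_le_mul_of_nonneg_left h4 hL
      _ ≤ _ := by
        by_cases hp : v.Prime
        · simp only [hp, not_true_eq_false, if_false, add_zero]
          split_ifs with hc hm hm
          · rw [ArithmeticFunction.vonMangoldt_apply_prime hp, mul_one]
          · exfalso
            apply hm
            rw [hk] at hc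
            exact mem_PS_of_fract hr hp hv.2 hc.1 hc.2
          · rw [mul_zero]; exact hv0
          · rw [mul_zero]
        · simp only [hp, not_false_eq_true, if_true]
          have h5 : 0 ≤ (if v ∈ PS N A then Real.log v else 0) := by
            split_ifs
            · exact hv0
            · exact le_rfl
          have h6 : ArithmeticFunction.vonMangoldt v *
            (if (0 < Int.fract (√(v : ℝ)) ∧ Int.fract (√(v : ℝ)) < ((k : ℝ) + 1) * δ) then 1 else 0) ≤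
              ArithmeticFunction.vonMangoldt v := by
            split_ifs
            · rw [mul_one]
            · rw [mul_zero]; exact hL
          linarith
  rw [Finset.sum_add_distrib] at h3
  have h7 : ∑ v ∈ Ioc X (r ^ 2), (if ¬ v.Prime then ArithmeticFunction.vonMangoldt v else 0) ≤ C₀ * N := by
    calc ∑ v ∈ Ioc X (r ^ 2), (if ¬ v.Prime then ArithmeticFunction.vonMangoldt v else 0)
        ≤ ∑ v ∈ Ioc 0 (r ^ 2), (if ¬ v.Prime then ArithmeticFunction.vonMangoldt v else 0) := by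
          apply Finset.sum_le_sum_of_subset_of_nonneg
          · intro v hv
            rw [Finset.mem_Ioc] at hv ⊢
            omega
          · intro v _ _
            split_ifs
            · exact le_rfl
            · exact ArithmeticFunction.vonMangoldt_nonneg
      _ = Chebyshev.psi ((r ^ 2 : ℕ) : ℝ) - Chebyshev.theta ((r ^ 2 : ℕ) : ℝ) := by
          rw [Chebyshev.psi_sub_theta_eq_sum_not_prime, Nat.floor_natCast, Finset.sum_filter]
      _ ≤ C₀ * √((r ^ 2 : ℕ) : ℝ) := hC₀ _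
      _ = C₀ * r := by
          congr 1
          push_cast
          exact Real.sqrt_sq (Nat.cast_nonneg _)
      _ ≤ C₀ * N := by
          have : (r : ℝ) ≤ N := by exact_mod_cast hr
          gcongr
  linarith

lemma sum_Ioc_chain (x : ℕ → ℕ) (hx : Monotone x) (f : ℕ → ℝ) (a b : ℕ) (hab : a ≤ b) :
    ∑ i ∈ Ico a b, ∑ p ∈ Ioc (x i) (x (i + 1)), f p = ∑ p ∈ Ioc (x a) (x b), f p := by
  induction b, hab using Nat.le_induction with
  | base => simp
  | succ b hb ih =>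
    rw [Finset.sum_Ico_succ_top hb, ih]
    exact Finset.sum_Ioc_consecutive f (hx hb) (hx (Nat.le_succ b))

end Run7.h994.BP
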