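import Mathlib
import Pool.Agent.Run7.h994.BP.FMa
import Pool.Agent.Cov.PNT

/-!
Project BP, piece FM (helper994): the first moment, lower bound.
-/

set_option autoImplicit false

namespace Run7.h994.BP

open Finset Filter Topology
open Pool.Agent.H469R2.NK (e)
open Pool.Agent.N792 (Vc V1 tri triC)
open Run7.h757.BP

lemma pnt_abs (τ : ℝ) (hτ : 0 < τ) : ∃ x₂ : ℝ, ∀ x : ℝ, x₂ ≤ x → |Chebyshev.psi x - x| ≤ τ * x := by
  have h := Pool.Agent.Cov.PNT.psi_div_tendsto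
  rw [Metric.tendsto_atTop] at h
  obtain ⟨x₂, hx₂⟩ := h τ hτ
  refine ⟨max x₂ 1, fun x hx => ?_⟩
  have h1 := hx₂ x (le_trans (le_max_left _ _) hx)
  have hx1 : 1 ≤ x := le_trans (le_max_right _ _) hx
  rw [Real.dist_eq] at h1
  have h2 : Chebyshev.psi x - x = (Chebyshev.psi x / x - 1) * x := by field_simp
  rw [h2, abs_mul, abs_of_pos (show (0 : ℝ) < x by linarith)]
  gcongr

lemma W_ge (τ : ℝ) (X X' : ℕ) (hτ : 0 ≤ τ) (h1 : |Chebyshev.psi (X : ℝ) - X| ≤ τ * X)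
    (h2 : |Chebyshev.psi (X' : ℝ) - X'| ≤ τ * X') (hXX' : X ≤ X') :
    (X' : ℝ) - X - 2 * τ * X' ≤ ∑ v ∈ Ioc X X', ArithmeticFunction.vonMangoldt v := by
  have h3 : Chebyshev.psi (X : ℝ) + ∑ v ∈ Ioc X X', ArithmeticFunction.vonMangoldt v =
      Chebyshev.psi (X' : ℝ) := by
    unfold Chebyshev.psi
    rw [Nat.floor_natCast, Nat.floor_natCast]
    exact Finset.sum_Ioc_consecutive _ (Nat.zero_le _) hXX'
  have h4 := (abs_le.mp h1).2
  have h5 := (abs_le.mp h2).1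
  have h6 : (X : ℝ) ≤ X' := by exact_mod_cast hXX'
  have h7 : τ * (X : ℝ) ≤ τ * X' := by gcongr
  linarith

lemma term_alg (K M i A W : ℝ) (hK : 1 ≤ K) (hM : 0 < M) (hA : 0 ≤ A) (hi : K ≤ i) (hi2 : i + 1 ≤ K ^ 2)
    (hW : ((i + 1) * M) ^ 2 - (i * M) ^ 2 - 2 * (1 / (4 * K ^ 3)) * ((i + 1) * M) ^ 2 ≤ W) :
    (1 - 1 / K) ^ 2 * (A * M) ≤
      (K - 1) * ((A / (2 * ((i + 1) * M)) / K) * W - 1 / (2 * K ^ 3) *
        ((A / (2 * ((i + 1) * M)) / K) * (i * M) ^ 2)) := by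
  have hK0 : 0 < K := by linarith
  have hi0 : 0 < i + 1 := by linarith
  have hd : 0 ≤ A / (2 * ((i + 1) * M)) / K := by positivity
  have hK1 : 0 ≤ K - 1 := by linarith
  -- W - η₁ X ≥ M² ((2i+1) - (i+1)²/K³) ≥ M² (i+1) 2 (1-1/K)
  have h1 : M ^ 2 * ((i + 1) * (2 * (1 - 1 / K))) ≤ W - 1 / (2 * K ^ 3) * (i * M) ^ 2 := by
    have h2 : (i * M) ^ 2 ≤ ((i + 1) * M) ^ 2 := by
      apply pow_le_pow_left₀ (by nlinarith)
      nlinarith
    have h3 : 1 / (2 * K ^ 3) * (i * M) ^ 2 ≤ 1 / (2 * K ^ 3) * ((i + 1) * M) ^ 2 := by gcongr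
    have h4 : M ^ 2 * ((2 * i + 1) - (i + 1) ^ 2 / K ^ 3) ≤ W - 1 / (2 * K ^ 3) * (i * M) ^ 2 := by
      have e1 : M ^ 2 * ((2 * i + 1) - (i + 1) ^ 2 / K ^ 3) =
          ((i + 1) * M) ^ 2 - (i * M) ^ 2 - 2 * (1 / (4 * K ^ 3)) * ((i + 1) * M) ^ 2 -
            1 / (2 * K ^ 3) * ((i + 1) * M) ^ 2 := by
        field_simp
        ring
      rw [e1]
      linarith
    refine le_trans ?_ h4
    apply mul_le_mul_of_nonneg_left _ (by positivity)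
    have h5 : 1 ≤ (i + 1) / K := by rw [le_div_iff₀ hK0]; linarith
    have h6 : (i + 1) ^ 2 / K ^ 3 ≤ (i + 1) / K := by
      rw [div_le_div_iff₀ (by positivity) hK0]
      have : (i + 1) ^ 2 * K = (i + 1) * K * (i + 1) := by ring
      rw [this]
      calc (i + 1) * K * (i + 1) ≤ (i + 1) * K * K ^ 2 := by gcongr
        _ = (i + 1) * K ^ 3 := by ring
    have h7 : (i + 1) * (2 * (1 - 1 / K)) = 2 * (i + 1) - 2 * ((i + 1) / K) := by
      field_simp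
    rw [h7]
    linarith
  calc (1 - 1 / K) ^ 2 * (A * M)
      = (K - 1) * (A / (2 * ((i + 1) * M)) / K) * (M ^ 2 * ((i + 1) * (2 * (1 - 1 / K)))) := by
        field_simp
    _ ≤ (K - 1) * (A / (2 * ((i + 1) * M)) / K) * (W - 1 / (2 * K ^ 3) * (i * M) ^ 2) := by gcongr
    _ = _ := by ring

lemma rpow_low (N K Y ε ε' : ℝ) (hN : 1 ≤ N) (hK : 1 ≤ K) (hε' : 0 < ε') (h1 : ε' ≤ 1 / 8)
    (h2 : ε' ≤ ε / 8) (hc : (2 * K) ^ 2 ≤ N ^ (ε / 2)) (hY : N / (2 * K) ≤ Y) :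
    (Y ^ 2) ^ (-1 / 4 + ε') ≤ N ^ (-1 / 2 + ε) / (2 * K) := by
  have hN0 : 0 < N := by linarith
  have hK0 : 0 < 2 * K := by linarith
  have hY0 : 0 < N / (2 * K) := by positivity
  calc (Y ^ 2) ^ (-1 / 4 + ε') ≤ ((N / (2 * K)) ^ 2) ^ (-1 / 4 + ε') := by
        apply Real.rpow_le_rpow_of_nonpos (by positivity)
        · gcongr
        · linarith
    _ = (N / (2 * K)) ^ (2 * (-1 / 4 + ε')) := by
        rw [← Real.rpow_natCast, ← Real.rpow_mul hY0.le]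
        norm_num
    _ = N ^ (2 * (-1 / 4 + ε')) * (2 * K) ^ (-(2 * (-1 / 4 + ε'))) := by
        rw [Real.div_rpow hN0.le hK0.le, Real.rpow_neg hK0.le, div_eq_mul_inv]
    _ ≤ N ^ (2 * (-1 / 4 + ε')) * (2 * K) := by
        gcongr
        nth_rewrite 2 [← Real.rpow_one (2 * K)]
        apply Real.rpow_le_rpow_of_exponent_le (by linarith)
        linarith
    _ = N ^ (2 * (-1 / 4 + ε')) * (2 * K) ^ 2 / (2 * K) := by field_simp
    _ ≤ N ^ (-1 / 2 + ε) / (2 * K) := by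
        gcongr
        calc N ^ (2 * (-1 / 4 + ε')) * (2 * K) ^ 2 ≤ N ^ (2 * (-1 / 4 + ε')) * N ^ (ε / 2) := by gcongr
          _ = N ^ (2 * (-1 / 4 + ε') + ε / 2) := by rw [← Real.rpow_add hN0]
          _ ≤ N ^ (-1 / 2 + ε) := by
              apply Real.rpow_le_rpow_of_exponent_le hN
              linarith

theorem fm (hTRI : S_TRI) : S_FM := by
  intro ε η hε hη
  obtain ⟨K, hK⟩ := exists_nat_ge (max 3 (6 / η))
  have hK3 : (3 : ℝ) ≤ K := (le_max_left _ _).trans hK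
  have hK6 : 6 / η ≤ K := (le_max_right _ _).trans hK
  have hK3n : 3 ≤ K := by exact_mod_cast hK3
  have hK0 : (0 : ℝ) < K := by linarith
  have hKη : 3 / (K : ℝ) ≤ η / 2 := by
    rw [div_le_iff₀ hK0]
    rw [div_le_iff₀ hη] at hK6
    linarith
  obtain ⟨ε', hε'⟩ : ∃ x, x = min ε 1 / 8 := ⟨_, rfl⟩
  have hε'0 : 0 < ε' := by
    rw [hε']
    have : 0 < min ε 1 := lt_min hε one_pos
    positivity
  have hε'1 : ε' ≤ 1 / 8 := by
    rw [hε']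
    linarith [min_le_right ε 1]
  have hε'2 : ε' ≤ ε / 8 := by
    rw [hε']
    linarith [min_le_left ε 1]
  obtain ⟨X₁, hX₁⟩ := hTRI ε' (1 / (2 * (K : ℝ) ^ 3)) hε'0 (by positivity)
  obtain ⟨x₂, hx₂⟩ := pnt_abs (1 / (4 * (K : ℝ) ^ 3)) (by positivity)
  obtain ⟨C₀', hC₀'⟩ := Chebyshev.psi_sub_theta_le_mul_sqrt
  obtain ⟨C₀, hC₀d⟩ : ∃ C₀, C₀ = max C₀' 0 := ⟨_, rfl⟩
  have hC₀0 : 0 ≤ C₀ := by rw [hC₀d]; exact le_max_right _ _
  have hC₀ : ∀ x : ℝ, Chebyshev.psi x - Chebyshev.theta x ≤ C₀ * x.sqrt := fun x =>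
    (hC₀' x).trans (mul_le_mul_of_nonneg_right (by rw [hC₀d]; exact le_max_left _ _) (Real.sqrt_nonneg _))
  have tend : ∀ a : ℝ, 0 < a → Tendsto (fun X : ℕ => (X : ℝ) ^ a) atTop atTop := fun a ha =>
    (tendsto_rpow_atTop ha).comp tendsto_natCast_atTop_atTop
  have ev1 : ∀ᶠ N : ℕ in atTop, (2 * (K : ℝ)) ^ 2 ≤ (N : ℝ) ^ (ε / 2) :=
    (tend _ (by positivity)).eventually_ge_atTop _
  have ev2 : ∀ᶠ N : ℕ in atTop, 2 * (K : ℝ) ≤ (N : ℝ) ^ (1 / 10 : ℝ) :=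
    (tend _ (by positivity)).eventually_ge_atTop _
  have ev3 : ∀ᶠ N : ℕ in atTop, 4 * (K : ℝ) ^ 2 / η ≤ (N : ℝ) ^ (1 : ℝ) :=
    (tend _ (by positivity)).eventually_ge_atTop _
  have ev4 : ∀ᶠ N : ℕ in atTop, 4 * ((K : ℝ) ^ 2 * C₀) / η ≤ (N : ℝ) ^ (1 / 2 : ℝ) :=
    (tend _ (by positivity)).eventually_ge_atTop _
  obtain ⟨N₀, hN₀⟩ := eventually_atTop.mp (ev1.and (ev2.and (ev3.and (ev4.and
    (eventually_ge_atTop (2 * K ^ 2 * (X₁ + ⌈x₂⌉₊ + 1)))))))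
  refine ⟨N₀, fun N hN A hA1 hA2 => ?_⟩
  obtain ⟨c1, c2, c3, c4, c5⟩ := hN₀ N hN
  rw [Real.rpow_one] at c3
  have hK2pos : 0 < K ^ 2 := by positivity
  have hN2K : 2 * K ^ 2 ≤ N := by
    calc 2 * K ^ 2 = 2 * K ^ 2 * 1 := by ring
      _ ≤ 2 * K ^ 2 * (X₁ + ⌈x₂⌉₊ + 1) := Nat.mul_le_mul_left _ (by omega)
      _ ≤ N := c5
  have hN18 : 18 ≤ N := by nlinarith
  have hNr : (1 : ℝ) ≤ N := by
    have : 1 ≤ N := by omega
    exact_mod_cast this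
  have hN0 : (0 : ℝ) < N := by linarith
  have hN2r : 2 * (K : ℝ) ^ 2 ≤ N := by exact_mod_cast hN2K
  -- M
  obtain ⟨M, hM⟩ : ∃ M, M = N / K ^ 2 := ⟨_, rfl⟩
  have hM1 : X₁ + ⌈x₂⌉₊ + 1 ≤ M := by
    rw [hM, Nat.le_div_iff_mul_le hK2pos]
    calc (X₁ + ⌈x₂⌉₊ + 1) * K ^ 2 ≤ 2 * K ^ 2 * (X₁ + ⌈x₂⌉₊ + 1) := by nlinarith
      _ ≤ N := c5
  have hMpos : 0 < M := by omega
  have hM0 : (0 : ℝ) < M := by exact_mod_cast hMpos
  have hMK : K ^ 2 * M ≤ N := by rw [hM]; exact Nat.mul_div_le N (K ^ 2)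
  have hMK2 : (N : ℝ) - (K : ℝ) ^ 2 ≤ (K : ℝ) ^ 2 * M := by
    have h1 : N ≤ K ^ 2 * M + K ^ 2 := by
      have h2 := Nat.div_add_mod N (K ^ 2)
      have h3 := Nat.mod_lt N hK2pos
      rw [← hM] at h2
      omega
    have h4 : (N : ℝ) ≤ (K : ℝ) ^ 2 * M + (K : ℝ) ^ 2 := by exact_mod_cast h1
    linarith
  have hKM : (N : ℝ) / (2 * K) ≤ K * M := by
    rw [div_le_iff₀ (by positivity)]
    nlinarith
  have hA0 : (0 : ℝ) ≤ A := Nat.cast_nonneg _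
  have hAhalf : (N : ℝ) ^ (1 / 2 : ℝ) ≤ A := by
    refine le_trans ?_ hA1
    apply Real.rpow_le_rpow_of_exponent_le hNr
    linarith
  have hApos : (0 : ℝ) < A := lt_of_lt_of_le (Real.rpow_pos_of_pos hN0 _) hAhalf
  -- the cells
  set x : ℕ → ℕ := fun i => (i * M) ^ 2 with hx
  have hxmono : Monotone x := by
    intro a b hab
    exact Nat.pow_le_pow_left (Nat.mul_le_mul_right _ hab) 2
  set f : ℕ → ℝ := fun p => if p ∈ PS N A then Real.log p else 0 with hf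
  have hf0 : ∀ p, 0 ≤ f p := by
    intro p
    rw [hf]
    simp only
    split_ifs
    · exact Real.log_natCast_nonneg p
    · exact le_rfl
  have hcell : ∀ i ∈ Ico K (K ^ 2), (1 - 1 / (K : ℝ)) ^ 2 * (A * M) - C₀ * N ≤
      ∑ p ∈ Ioc (x i) (x (i + 1)), f p := by
    intro i hi
    rw [Finset.mem_Ico] at hi
    have hiK : (K : ℝ) ≤ i := by exact_mod_cast hi.1
    have hi2 : (i : ℝ) + 1 ≤ (K : ℝ) ^ 2 := by
      have : i + 1 ≤ K ^ 2 := hi.2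
      exact_mod_cast this
    have hi0 : (0 : ℝ) < (i : ℝ) + 1 := by linarith
    obtain ⟨r, hr⟩ : ∃ r, r = (i + 1) * M := ⟨_, rfl⟩
    have hrr : (r : ℝ) = ((i : ℝ) + 1) * M := by rw [hr]; push_cast; ring
    have hrN : r ≤ N := by
      rw [hr]
      calc (i + 1) * M ≤ K ^ 2 * M := Nat.mul_le_mul_right _ hi.2
        _ ≤ N := hMK
    have hr0 : (0 : ℝ) < r := by rw [hrr]; positivity
    have hrlow : (N : ℝ) / (2 * K) ≤ r := by
      rw [hrr]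
      calc (N : ℝ) / (2 * K) ≤ K * M := hKM
        _ ≤ ((i : ℝ) + 1) * M := by
            gcongr
            linarith
    have hilow : (N : ℝ) / (2 * K) ≤ i * M := by
      calc (N : ℝ) / (2 * K) ≤ K * M := hKM
        _ ≤ i * M := by gcongr
    obtain ⟨δ, hδ⟩ : ∃ δ : ℝ, δ = (A : ℝ) / (2 * r) / K := ⟨_, rfl⟩
    have hδ0 : 0 < δ := by rw [hδ]; positivity
    have hKδ : (((K - 1 : ℕ) : ℝ) + 1) * δ = (A : ℝ) / (2 * r) := by
      have : ((K - 1 : ℕ) : ℝ) + 1 = K := by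
        rw [Nat.cast_sub (by omega)]; push_cast; ring
      rw [this, hδ]
      field_simp
    have hκ : (A : ℝ) / (2 * r) ≤ 1 / 2 := by
      rw [div_le_iff₀ (by positivity)]
      have h1 : (A : ℝ) ≤ (N : ℝ) / (2 * K) := by
        rw [le_div_iff₀ (by positivity)]
        calc (A : ℝ) * (2 * K) ≤ (N : ℝ) ^ (9 / 10 : ℝ) * (N : ℝ) ^ (1 / 10 : ℝ) := by gcongr
          _ = N := by
              rw [← Real.rpow_add hN0]
              norm_num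
      linarith
    have hδhalf : δ ≤ 1 / 2 := by
      rw [hδ]
      calc (A : ℝ) / (2 * r) / K ≤ (A : ℝ) / (2 * r) / 1 := by
            gcongr
            linarith
        _ = (A : ℝ) / (2 * r) := by ring
        _ ≤ 1 / 2 := hκ
    have hX1 : X₁ ≤ (i * M) ^ 2 := by
      have h1 : 1 ≤ i := by omega
      calc X₁ ≤ M := by omega
        _ ≤ i * M := Nat.le_mul_of_pos_left _ h1
        _ ≤ (i * M) ^ 2 := Nat.le_self_pow (by norm_num) _
    have hx2 : x₂ ≤ (((i * M) ^ 2 : ℕ) : ℝ) := by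
      have h1 : 1 ≤ i := by omega
      have h2 : ⌈x₂⌉₊ ≤ (i * M) ^ 2 := by
        calc ⌈x₂⌉₊ ≤ M := by omega
          _ ≤ i * M := Nat.le_mul_of_pos_left _ h1
          _ ≤ (i * M) ^ 2 := Nat.le_self_pow (by norm_num) _
      calc x₂ ≤ (⌈x₂⌉₊ : ℝ) := Nat.le_ceil _
        _ ≤ _ := by exact_mod_cast h2
    have hXX' : (i * M) ^ 2 ≤ r ^ 2 := by
      rw [hr]
      exact Nat.pow_le_pow_left (Nat.mul_le_mul_right _ (by omega)) 2
    have hX'2 : r ^ 2 ≤ 2 * (i * M) ^ 2 := by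
      rw [hr, mul_pow, mul_pow, ← mul_assoc]
      apply Nat.mul_le_mul_right
      have : 3 ≤ i := by omega
      nlinarith
    have hlowδ : (((i * M) ^ 2 : ℕ) : ℝ) ^ (-1 / 4 + ε') ≤ δ := by
      have h1 := rpow_low N K (i * M) ε ε' hNr (by linarith) hε'0 hε'1 hε'2 c1 hilow
      push_cast
      refine h1.trans ?_
      rw [hδ, div_div, div_le_div_iff₀ (by positivity) (by positivity)]
      have h2 : (r : ℝ) ≤ N := by exact_mod_cast hrN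
      have h3 : (N : ℝ) ^ (1 / 2 + ε) = (N : ℝ) ^ (-1 / 2 + ε) * N := by
        nth_rewrite 3 [← Real.rpow_one (N : ℝ)]
        rw [← Real.rpow_add hN0]
        congr 1
        ring
      calc (N : ℝ) ^ (-1 / 2 + ε) * (2 * r * K) ≤ (N : ℝ) ^ (-1 / 2 + ε) * (2 * N * K) := by gcongr
        _ = (N : ℝ) ^ (1 / 2 + ε) * (2 * K) := by rw [h3]; ring
        _ ≤ A * (2 * K) := by gcongr
    have hT := fun t : ℝ => hX₁ ((i * M) ^ 2) (r ^ 2) hX1 hXX' hX'2 δ t hlowδ hδhalf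
    have hcb := cell_bound (K - 1) A N r ((i * M) ^ 2) δ (1 / (2 * (K : ℝ) ^ 3)) C₀ hrN hδ0 hKδ
      (by rw [hKδ]; exact hκ) hT hC₀ hC₀0
    have hx2' : x₂ ≤ ((r ^ 2 : ℕ) : ℝ) := hx2.trans (by exact_mod_cast hXX')
    have hW := W_ge (1 / (4 * (K : ℝ) ^ 3)) ((i * M) ^ 2) (r ^ 2) (by positivity) (hx₂ _ hx2) (hx₂ _ hx2') hXX'
    have hta := term_alg K M i A (∑ v ∈ Ioc ((i * M) ^ 2) (r ^ 2), ArithmeticFunction.vonMangoldt v)
      (by linarith) hM0 hA0 hiK hi2 (by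
        refine le_trans (le_of_eq ?_) hW
        rw [hr]
        push_cast
        ring)
    have hxe : x (i + 1) = r ^ 2 := by rw [hx, hr]
    rw [hxe]
    refine le_trans ?_ hcb
    have e1 : (((K - 1 : ℕ) : ℝ)) = (K : ℝ) - 1 := by
      rw [Nat.cast_sub (by omega)]; push_cast; ring
    rw [e1]
    have e2 : (A : ℝ) / (2 * (((i : ℝ) + 1) * M)) / K = δ := by rw [hδ, hrr]
    rw [e2] at hta
    have e3 : (((i * M) ^ 2 : ℕ) : ℝ) = ((i : ℝ) * M) ^ 2 := by push_cast; ring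
    rw [e3]
    linarith
  -- summation over the cells
  have hsum : ((K : ℝ) ^ 2 - K) * ((1 - 1 / (K : ℝ)) ^ 2 * (A * M) - C₀ * N) ≤
      2 * Real.log N * ∑ a ∈ Icc 1 A, (P (a : ℕ) N : ℝ) := by
    have hKK : K ≤ K ^ 2 := Nat.le_self_pow (by norm_num) K
    calc ((K : ℝ) ^ 2 - K) * ((1 - 1 / (K : ℝ)) ^ 2 * (A * M) - C₀ * N)
        = ∑ i ∈ Ico K (K ^ 2), ((1 - 1 / (K : ℝ)) ^ 2 * (A * M) - C₀ * N) := by
          rw [Finset.sum_const, Nat.card_Ico, nsmul_eq_mul, Nat.cast_sub hKK]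
          push_cast
          ring
      _ ≤ ∑ i ∈ Ico K (K ^ 2), ∑ p ∈ Ioc (x i) (x (i + 1)), f p := Finset.sum_le_sum hcell
      _ = ∑ p ∈ Ioc (x K) (x (K ^ 2)), f p := sum_Ioc_chain x hxmono f K (K ^ 2) hKK
      _ ≤ ∑ p ∈ PS N A, Real.log p := by
          rw [hf]
          simp only
          rw [← Finset.sum_filter]
          apply Finset.sum_le_sum_of_subset_of_nonneg
          · intro p hp
            rw [Finset.mem_filter] at hp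
            exact hp.2
          · intro p _ _
            exact Real.log_natCast_nonneg p
      _ ≤ _ := log_PS N A (by omega)
  have hlogN : 0 < Real.log N := Real.log_pos (by
    have : 1 < N := by omega
    exact_mod_cast this)
  -- final computation
  have hfin : (1 - η) * (A * N) ≤ ((K : ℝ) ^ 2 - K) * ((1 - 1 / (K : ℝ)) ^ 2 * (A * M) - C₀ * N) := by
    have h1 : 1 - 3 / (K : ℝ) ≤ (1 - 1 / (K : ℝ)) ^ 3 := by
      have := one_add_mul_le_pow (show (-2 : ℝ) ≤ -(1 / (K : ℝ)) by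
        have : 1 / (K : ℝ) ≤ 1 := by rw [div_le_one hK0]; linarith
        linarith) 3
      have e1 : (1 : ℝ) + ((3 : ℕ) : ℝ) * -(1 / (K : ℝ)) = 1 - 3 / K := by push_cast; ring
      have e2 : (1 : ℝ) + -(1 / (K : ℝ)) = 1 - 1 / K := by ring
      rw [e1, e2] at this
      exact this
    have h2 : ((K : ℝ) ^ 2 - K) * ((1 - 1 / (K : ℝ)) ^ 2 * (A * M)) =
        (1 - 1 / (K : ℝ)) ^ 3 * (A * ((K : ℝ) ^ 2 * M)) := by
      field_simp
    have h3 : 0 ≤ 1 - 3 / (K : ℝ) := by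
      have : 3 / (K : ℝ) ≤ 1 := by rw [div_le_one hK0]; exact hK3
      linarith
    have h4 : (1 - 3 / (K : ℝ)) * (A * (N - (K : ℝ) ^ 2)) ≤ (1 - 1 / (K : ℝ)) ^ 3 * (A * ((K : ℝ) ^ 2 * M)) := by
      have h5 : 0 ≤ A * ((K : ℝ) ^ 2 * M) := by positivity
      calc (1 - 3 / (K : ℝ)) * (A * (N - (K : ℝ) ^ 2)) ≤ (1 - 3 / (K : ℝ)) * (A * ((K : ℝ) ^ 2 * M)) := by
            gcongr
        _ ≤ _ := by gcongr
    have h6 : (1 - 3 / (K : ℝ)) * (A * (N - (K : ℝ) ^ 2)) ≥ (1 - η / 2) * (A * N) - A * (K : ℝ) ^ 2 := by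
      have h7 : (3 / (K : ℝ)) * (A * N) ≤ (η / 2) * (A * N) := by gcongr
      have h8 : 0 ≤ (3 / (K : ℝ)) * (A * (K : ℝ) ^ 2) := by positivity
      nlinarith
    have h9 : A * (K : ℝ) ^ 2 ≤ η / 4 * (A * N) := by
      have : (K : ℝ) ^ 2 ≤ η / 4 * N := by
        rw [div_le_iff₀ hη] at c3
        linarith
      calc A * (K : ℝ) ^ 2 ≤ A * (η / 4 * N) := by gcongr
        _ = _ := by ring
    have h10 : ((K : ℝ) ^ 2 - K) * (C₀ * N) ≤ η / 4 * (A * N) := by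
      have h11 : (K : ℝ) ^ 2 * C₀ ≤ η / 4 * A := by
        rw [div_le_iff₀ hη] at c4
        have : 4 * ((K : ℝ) ^ 2 * C₀) ≤ A * η := by
          calc 4 * ((K : ℝ) ^ 2 * C₀) ≤ (N : ℝ) ^ (1 / 2 : ℝ) * η := c4
            _ ≤ A * η := by gcongr
        linarith
      calc ((K : ℝ) ^ 2 - K) * (C₀ * N) ≤ (K : ℝ) ^ 2 * (C₀ * N) := by
            apply mul_le_mul_of_nonneg_right _ (by positivity)
            linarith
        _ = ((K : ℝ) ^ 2 * C₀) * N := by ring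
        _ ≤ (η / 4 * A) * N := by gcongr
        _ = _ := by ring
    calc (1 - η) * (A * N) = (1 - η / 2) * (A * N) - η / 4 * (A * N) - η / 4 * (A * N) := by ring
      _ ≤ (1 - η / 2) * (A * N) - A * (K : ℝ) ^ 2 - ((K : ℝ) ^ 2 - K) * (C₀ * N) := by linarith
      _ ≤ (1 - 1 / (K : ℝ)) ^ 3 * (A * ((K : ℝ) ^ 2 * M)) - ((K : ℝ) ^ 2 - K) * (C₀ * N) := by linarith
      _ = ((K : ℝ) ^ 2 - K) * ((1 - 1 / (K : ℝ)) ^ 2 * (A * M) - C₀ * N) := by rw [← h2]; ring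
  have hall := hfin.trans hsum
  calc (1 - η) * (A * N / (2 * Real.log N)) = ((1 - η) * (A * N)) / (2 * Real.log N) := by ring
    _ ≤ ∑ a ∈ Icc 1 A, (P (a : ℕ) N : ℝ) := by
        rw [div_le_iff₀ (by positivity)]
        linarith

end Run7.h994.BP
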