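import Mathlib
import Pool.Agent.Run7.h757.BP.Stm

/-!
Project BP, piece ES (helper994): exponential sums over primes with the phases `h √n`, on average over `h`.
-/

set_option autoImplicit false

namespace Run7.h994.BP

open Finset Filter Topology
open Pool.Agent.H469R2.NK (e)
open Run7.h757.BP

lemma sqrt_sqrt_facts (X : ℕ) (hX : 1 ≤ X) :
    1 ≤ Nat.sqrt (Nat.sqrt X) ∧ Nat.sqrt (Nat.sqrt X) ^ 4 ≤ X ∧ X ≤ 16 * Nat.sqrt (Nat.sqrt X) ^ 4 := by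
  set s := Nat.sqrt X with hs
  set U := Nat.sqrt s with hU
  have h1 : 1 ≤ s := Nat.le_sqrt.mpr (by omega)
  have h2 : 1 ≤ U := Nat.le_sqrt.mpr (by omega)
  have h3 : U * U ≤ s := Nat.sqrt_le s
  have h4 : s * s ≤ X := Nat.sqrt_le X
  have h5 : s < (U + 1) * (U + 1) := Nat.lt_succ_sqrt s
  have h6 : X < (s + 1) * (s + 1) := Nat.lt_succ_sqrt X
  refine ⟨h2, ?_, ?_⟩
  · calc U ^ 4 = (U * U) * (U * U) := by ring
      _ ≤ s * s := Nat.mul_le_mul h3 h3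
      _ ≤ X := h4
  · have h7 : s + 1 ≤ (2 * U) * (2 * U) := by nlinarith
    calc X ≤ (s + 1) * (s + 1) := h6.le
      _ ≤ ((2 * U) * (2 * U)) * ((2 * U) * (2 * U)) := Nat.mul_le_mul h7 h7
      _ = 16 * U ^ 4 := by ring

lemma sum_inv_le (U X : ℕ) (hU : 1 ≤ U) (hUX : U ≤ X) :
    ∑ m ∈ Icc 1 U, (1 : ℝ) / m ≤ 1 + Real.log (4 * X) := by
  have h := harmonic_le_one_add_log U
  have h2 : ((harmonic U : ℚ) : ℝ) = ∑ m ∈ Icc 1 U, (1 : ℝ) / m := by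
    rw [harmonic_eq_sum_Icc]
    push_cast
    apply Finset.sum_congr rfl
    intro m _
    rw [one_div]
  rw [h2] at h
  have h3 : Real.log U ≤ Real.log (4 * X) := by
    apply Real.log_le_log
    · exact_mod_cast hU
    · have : (U : ℝ) ≤ X := by exact_mod_cast hUX
      have : (0 : ℝ) ≤ X := Nat.cast_nonneg _
      linarith
  linarith

lemma norm_EE_le (H : ℕ) (c : ℕ → ℂ) (hc : ∀ h, ‖c h‖ ≤ 1) (v : ℕ) : ‖EE H c v‖ ≤ H := by
  unfold EE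
  calc ‖∑ h ∈ Ico H (2 * H), c h * e (h * √(v : ℝ))‖ ≤ ∑ h ∈ Ico H (2 * H), ‖c h * e (h * √(v : ℝ))‖ :=
        norm_sum_le _ _
    _ ≤ ∑ h ∈ Ico H (2 * H), (1 : ℝ) := by
        apply Finset.sum_le_sum
        intro h _
        rw [norm_mul, Pool.Agent.H469R2.NK.norm_e, mul_one]
        exact hc h
    _ = H := by
        rw [Finset.sum_const, Nat.card_Ico, nsmul_eq_mul, mul_one]
        congr 1
        omega

/-- type I sums of `EE` -/
lemma typeI_EE {C₂ : ℝ} (hC₂ : 1 ≤ C₂)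
    (hTI : ∀ (X X' h k b : ℕ), 1 ≤ X → X' ≤ 2 * X → 1 ≤ h → h ^ 2 ≤ X → 1 ≤ k → k ^ 4 ≤ X →
      b ≤ X' / k →
      ‖∑ l ∈ Ioc (X / k) b, e (h * √((k * l : ℕ) : ℝ))‖ ≤
        C₂ * (√(h : ℝ) * (X : ℝ) ^ (1 / 4 : ℝ) + (X : ℝ) ^ (3 / 4 : ℝ) / (√(h : ℝ) * k)) * (1 + Real.log X))
    (X X' H m b : ℕ) (c : ℕ → ℂ) (hX : 1 ≤ X) (hX' : X' ≤ 2 * X) (hH : 1 ≤ H) (hHX : 4 * H ^ 2 ≤ X)
    (hm : 1 ≤ m) (hmX : m ^ 4 ≤ X) (hb : b ≤ X' / m) (hc : ∀ h, ‖c h‖ ≤ 1) :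
    ‖∑ l ∈ Ioc (X / m) b, EE H c (m * l)‖ ≤
      C₂ * (1 + Real.log X) * (2 * (H * √(H : ℝ)) * (X : ℝ) ^ (1 / 4 : ℝ) +
        √(H : ℝ) * (X : ℝ) ^ (3 / 4 : ℝ) * (1 / m)) := by
  have hXr : (1 : ℝ) ≤ X := by exact_mod_cast hX
  have hlog : 0 ≤ Real.log X := Real.log_nonneg hXr
  have hH0 : (0 : ℝ) < H := by exact_mod_cast hH
  have hm0 : (0 : ℝ) < m := by exact_mod_cast hm
  have e1 : ∑ l ∈ Ioc (X / m) b, EE H c (m * l) =
      ∑ h ∈ Ico H (2 * H), c h * ∑ l ∈ Ioc (X / m) b, e (h * √((m * l : ℕ) : ℝ)) := by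
    unfold EE
    rw [Finset.sum_comm]
    apply Finset.sum_congr rfl
    intro h _
    rw [Finset.mul_sum]
  rw [e1]
  calc ‖∑ h ∈ Ico H (2 * H), c h * ∑ l ∈ Ioc (X / m) b, e (h * √((m * l : ℕ) : ℝ))‖
      ≤ ∑ h ∈ Ico H (2 * H), ‖c h * ∑ l ∈ Ioc (X / m) b, e (h * √((m * l : ℕ) : ℝ))‖ := norm_sum_le _ _
    _ ≤ ∑ h ∈ Ico H (2 * H), C₂ * (2 * √(H : ℝ) * (X : ℝ) ^ (1 / 4 : ℝ) +
          (X : ℝ) ^ (3 / 4 : ℝ) / (√(H : ℝ) * m)) * (1 + Real.log X) := by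
        apply Finset.sum_le_sum
        intro h hh
        rw [Finset.mem_Ico] at hh
        have h1 : 1 ≤ h := by omega
        have h2 : h ^ 2 ≤ X := by
          calc h ^ 2 ≤ (2 * H) ^ 2 := Nat.pow_le_pow_left (by omega) 2
            _ = 4 * H ^ 2 := by ring
            _ ≤ X := hHX
        have h3 := hTI X X' h m b hX hX' h1 h2 hm hmX hb
        rw [norm_mul]
        have hHh : √(H : ℝ) ≤ √(h : ℝ) := Real.sqrt_le_sqrt (by exact_mod_cast hh.1)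
        have hHs : 0 < √(H : ℝ) := Real.sqrt_pos.mpr hH0
        have hh2 : √(h : ℝ) ≤ 2 * √(H : ℝ) := by
          rw [Real.sqrt_le_iff]
          refine ⟨by positivity, ?_⟩
          have : (2 * √(H : ℝ)) ^ 2 = 4 * H := by
            rw [mul_pow, Real.sq_sqrt hH0.le]; norm_num
          rw [this]
          have : (h : ℝ) ≤ 2 * H := by exact_mod_cast hh.2.le
          linarith
        calc ‖c h‖ * ‖∑ l ∈ Ioc (X / m) b, e (h * √((m * l : ℕ) : ℝ))‖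
            ≤ 1 * ‖∑ l ∈ Ioc (X / m) b, e (h * √((m * l : ℕ) : ℝ))‖ := by
              apply mul_le_mul_of_nonneg_right (hc h) (norm_nonneg _)
          _ = ‖∑ l ∈ Ioc (X / m) b, e (h * √((m * l : ℕ) : ℝ))‖ := one_mul _
          _ ≤ _ := h3
          _ ≤ _ := by
              gcongr
    _ = C₂ * (1 + Real.log X) * (2 * (H * √(H : ℝ)) * (X : ℝ) ^ (1 / 4 : ℝ) +
        √(H : ℝ) * (X : ℝ) ^ (3 / 4 : ℝ) * (1 / m)) := by
        rw [Finset.sum_const, Nat.card_Ico, nsmul_eq_mul]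
        have hcard : ((2 * H - H : ℕ) : ℝ) = H := by
          congr 1; omega
        rw [hcard]
        have hs : √(H : ℝ) * √(H : ℝ) = H := Real.mul_self_sqrt hH0.le
        have hs0 : √(H : ℝ) ≠ 0 := (Real.sqrt_pos.mpr hH0).ne'
        have key : (H : ℝ) * ((X : ℝ) ^ (3 / 4 : ℝ) / (√(H : ℝ) * m)) =
            √(H : ℝ) * (X : ℝ) ^ (3 / 4 : ℝ) * (1 / m) := by
          have h5 : √(H : ℝ) * (X : ℝ) ^ (3 / 4 : ℝ) * (1 / m) =
              (√(H : ℝ) * √(H : ℝ)) * ((X : ℝ) ^ (3 / 4 : ℝ) / (√(H : ℝ) * m)) := by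
            field_simp
          rw [h5, hs]
        calc (H : ℝ) * (C₂ * (2 * √(H : ℝ) * (X : ℝ) ^ (1 / 4 : ℝ) +
              (X : ℝ) ^ (3 / 4 : ℝ) / (√(H : ℝ) * m)) * (1 + Real.log X)) =
            C₂ * (1 + Real.log X) * (2 * (H * √(H : ℝ)) * (X : ℝ) ^ (1 / 4 : ℝ) +
              (H : ℝ) * ((X : ℝ) ^ (3 / 4 : ℝ) / (√(H : ℝ) * m))) := by ring
          _ = _ := by rw [key]

lemma log_absorb (ε C₁ : ℝ) (hε : 0 < ε) (hC₁ : 0 < C₁) (X : ℕ) (hX : 1 ≤ X) :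
    ((C₁ + 1) * (2 * (X : ℝ)) ^ (ε / 2)) * (1 + Real.log (4 * X)) ^ 5 ≤
      (C₁ + 1) * (1 + 10 / ε) ^ 5 * (4 : ℝ) ^ ε * (X : ℝ) ^ ε := by
  have hXr : (1 : ℝ) ≤ X := by exact_mod_cast hX
  have h4 : (1 : ℝ) ≤ 4 * X := by linarith
  have h1 : (1 : ℝ) ≤ (4 * (X : ℝ)) ^ (ε / 10) := Real.one_le_rpow h4 (by positivity)
  have h2 : Real.log (4 * X) ≤ (10 / ε) * (4 * (X : ℝ)) ^ (ε / 10) := by
    have := Real.log_le_rpow_div (x := 4 * (X : ℝ)) (ε := ε / 10) (by linarith) (by positivity)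
    calc Real.log (4 * X) ≤ _ := this
      _ = _ := by field_simp
  have hlog : 0 ≤ Real.log (4 * X) := Real.log_nonneg h4
  have h3 : 1 + Real.log (4 * X) ≤ (1 + 10 / ε) * (4 * (X : ℝ)) ^ (ε / 10) := by
    have : (1 + 10 / ε) * (4 * (X : ℝ)) ^ (ε / 10) =
        (4 * (X : ℝ)) ^ (ε / 10) + (10 / ε) * (4 * (X : ℝ)) ^ (ε / 10) := by ring
    rw [this]; linarith
  have h5 : (1 + Real.log (4 * X)) ^ 5 ≤ (1 + 10 / ε) ^ 5 * (4 * (X : ℝ)) ^ (ε / 2) := by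
    calc (1 + Real.log (4 * X)) ^ 5 ≤ ((1 + 10 / ε) * (4 * (X : ℝ)) ^ (ε / 10)) ^ 5 := by
          gcongr
      _ = (1 + 10 / ε) ^ 5 * ((4 * (X : ℝ)) ^ (ε / 10)) ^ 5 := by rw [mul_pow]
      _ = (1 + 10 / ε) ^ 5 * (4 * (X : ℝ)) ^ (ε / 2) := by
          rw [← Real.rpow_natCast ((4 * (X : ℝ)) ^ (ε / 10)) 5, ← Real.rpow_mul (by linarith)]
          congr 2
          push_cast
          ring
  have h6 : (2 * (X : ℝ)) ^ (ε / 2) ≤ (4 * (X : ℝ)) ^ (ε / 2) :=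
    Real.rpow_le_rpow (by linarith) (by linarith) (by positivity)
  calc ((C₁ + 1) * (2 * (X : ℝ)) ^ (ε / 2)) * (1 + Real.log (4 * X)) ^ 5
      ≤ ((C₁ + 1) * (4 * (X : ℝ)) ^ (ε / 2)) * ((1 + 10 / ε) ^ 5 * (4 * (X : ℝ)) ^ (ε / 2)) := by
        gcongr
    _ = (C₁ + 1) * (1 + 10 / ε) ^ 5 * ((4 * (X : ℝ)) ^ (ε / 2) * (4 * (X : ℝ)) ^ (ε / 2)) := by ring
    _ = (C₁ + 1) * (1 + 10 / ε) ^ 5 * (4 * (X : ℝ)) ^ ε := by
        rw [← Real.rpow_add (by linarith)]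
        congr 2
        ring
    _ = (C₁ + 1) * (1 + 10 / ε) ^ 5 * (4 : ℝ) ^ ε * (X : ℝ) ^ ε := by
        rw [Real.mul_rpow (by norm_num) (by linarith)]
        ring

theorem es (hVAU : S_VAU) (hBIL : S_BIL) (hTI : S_TI) : S_ES := by
  intro ε hε
  obtain ⟨C₃, hC₃, hB⟩ := hBIL
  obtain ⟨C₂, hC₂, hT⟩ := hTI
  obtain ⟨C₁, hC₁, hD⟩ := Pool.Agent.Helper112.divisor_bound (ε / 2) (by positivity)
  refine ⟨(20 * C₃ + 6 * C₂ + 4) * ((C₁ + 1) * (1 + 10 / ε) ^ 5 * (4 : ℝ) ^ ε), ?_, ?_⟩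
  · have h1 : (1 : ℝ) ≤ (1 + 10 / ε) ^ 5 := one_le_pow₀ (by
      have : 0 < 10 / ε := by positivity
      linarith)
    have h2 : (1 : ℝ) ≤ (4 : ℝ) ^ ε := Real.one_le_rpow (by norm_num) hε.le
    have h3 : (1 : ℝ) ≤ (C₁ + 1) * (1 + 10 / ε) ^ 5 * (4 : ℝ) ^ ε := by
      apply one_le_mul_of_one_le_of_one_le _ h2
      apply one_le_mul_of_one_le_of_one_le _ h1
      linarith
    apply one_le_mul_of_one_le_of_one_le _ h3
    linarith
  intro X X' H c hH hHX hXX' hX' hc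
  have hX : 1 ≤ X := le_trans (Nat.one_le_pow 2 H hH) hHX
  have hXr : (1 : ℝ) ≤ X := by exact_mod_cast hX
  have hHr : (1 : ℝ) ≤ H := by exact_mod_cast hH
  have hHXr : (H : ℝ) ^ 2 ≤ X := by exact_mod_cast hHX
  have hlog4 : 0 ≤ Real.log (4 * X) := Real.log_nonneg (by linarith)
  have hlog : 0 ≤ Real.log X := Real.log_nonneg hXr
  have hlogle : Real.log X ≤ Real.log (4 * X) := Real.log_le_log (by linarith) (by linarith)
  obtain ⟨L, hL⟩ : ∃ L, L = 1 + Real.log (4 * X) := ⟨_, rfl⟩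
  obtain ⟨Q, hQ⟩ : ∃ Q, Q = √(H : ℝ) * (X : ℝ) ^ (7 / 8 : ℝ) + (H : ℝ) ^ 2 * (X : ℝ) ^ (1 / 2 : ℝ) := ⟨_, rfl⟩
  obtain ⟨T, hTd⟩ : ∃ T, T = (C₁ + 1) * (2 * (X : ℝ)) ^ (ε / 2) := ⟨_, rfl⟩
  have hL1 : 1 ≤ L := by rw [hL]; linarith
  have hQ0 : 0 ≤ Q := by rw [hQ]; positivity
  have hT1 : 1 ≤ T := by
    rw [hTd]
    apply one_le_mul_of_one_le_of_one_le (by linarith)
    exact Real.one_le_rpow (by linarith) (by positivity)
  have hsH : √(H : ℝ) * √(H : ℝ) = H := Real.mul_self_sqrt (by linarith)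
  have hsH1 : 1 ≤ √(H : ℝ) := Real.one_le_sqrt.mpr hHr
  have hLpow : ∀ k : ℕ, 1 ≤ L ^ k := fun k => one_le_pow₀ hL1
  have main : ‖∑ n ∈ Ioc X X', ((ArithmeticFunction.vonMangoldt n : ℝ) : ℂ) * EE H c n‖ ≤
      (20 * C₃ + 6 * C₂ + 4) * (T * L ^ 5) * Q := by
    by_cases hcase : 4 * H ^ 2 ≤ X
    · obtain ⟨hU1, hU4, hU16⟩ := sqrt_sqrt_facts X hX
      set U := Nat.sqrt (Nat.sqrt X) with hU
      have hUX : U ≤ X := le_trans (Nat.le_self_pow (by norm_num) U) hU4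
      have hU3 : U ^ 3 ≤ X := le_trans (Nat.pow_le_pow_right hU1 (by norm_num)) hU4
      have hUr : (U : ℝ) ≤ (X : ℝ) ^ (1 / 4 : ℝ) := by
        have h1 : ((U : ℝ) ^ (4 : ℕ)) ≤ X := by exact_mod_cast hU4
        calc (U : ℝ) = ((U : ℝ) ^ (4 : ℕ)) ^ (1 / 4 : ℝ) := by
              rw [← Real.rpow_natCast, ← Real.rpow_mul (Nat.cast_nonneg _)]
              norm_num
          _ ≤ _ := Real.rpow_le_rpow (by positivity) h1 (by norm_num)
      have hV := hVAU (EE H c) X X' U hX hXX' hX' hU1 hU3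
        (fun m => C₂ * (1 + Real.log X) * (2 * (H * √(H : ℝ)) * (X : ℝ) ^ (1 / 4 : ℝ) +
          √(H : ℝ) * (X : ℝ) ^ (3 / 4 : ℝ) * (1 / m))) T
        (C₃ * (1 + Real.log X) * Q)
        (by positivity) (fun m => by positivity) hT1
        (by
          intro m hm1 hm2
          have h1 := hD m hm1
          have h2 : (m : ℝ) ≤ 2 * X := by
            have : m ≤ 2 * X := le_trans hm2 hX'
            exact_mod_cast this
          calc (m.divisors.card : ℝ) ≤ C₁ * (m : ℝ) ^ (ε / 2) := h1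
            _ ≤ C₁ * (2 * (X : ℝ)) ^ (ε / 2) := by
                gcongr
            _ ≤ T := by
                rw [hTd]
                gcongr
                linarith)
        (by
          intro m hm b hb
          rw [Finset.mem_Icc] at hm
          exact typeI_EE hC₂ hT X X' H m b c hX hX' hH hcase hm.1
            (le_trans (Nat.pow_le_pow_left hm.2 4) hU4) hb hc)
        (by
          intro a b ha hb M L' hM hL' hUM hUL hML
          rw [hQ]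
          exact hB X X' U H M L' c a b hH hHX hX hXX' hX' hU16 hM hL' hUM hUL hML hc ha hb)
      refine hV.trans ?_
      have hsumY : ∑ m ∈ Icc 1 U, C₂ * (1 + Real.log X) * (2 * (H * √(H : ℝ)) * (X : ℝ) ^ (1 / 4 : ℝ) +
          √(H : ℝ) * (X : ℝ) ^ (3 / 4 : ℝ) * (1 / m)) ≤ 2 * C₂ * L ^ 2 * Q := by
        have hexp : ∑ m ∈ Icc 1 U, C₂ * (1 + Real.log X) * (2 * (H * √(H : ℝ)) * (X : ℝ) ^ (1 / 4 : ℝ) +
            √(H : ℝ) * (X : ℝ) ^ (3 / 4 : ℝ) * (1 / m)) =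
            C₂ * (1 + Real.log X) * ((U : ℝ) * (2 * (H * √(H : ℝ)) * (X : ℝ) ^ (1 / 4 : ℝ)) +
              √(H : ℝ) * (X : ℝ) ^ (3 / 4 : ℝ) * ∑ m ∈ Icc 1 U, (1 : ℝ) / m) := by
          rw [← Finset.mul_sum, Finset.sum_add_distrib, Finset.sum_const, Nat.card_Icc,
            nsmul_eq_mul, ← Finset.mul_sum]
          simp
        rw [hexp]
        have h1 := sum_inv_le U X hU1 hUX
        rw [← hL] at h1
        have h3 : (U : ℝ) * (2 * (H * √(H : ℝ)) * (X : ℝ) ^ (1 / 4 : ℝ)) ≤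
            2 * ((H : ℝ) ^ 2 * (X : ℝ) ^ (1 / 2 : ℝ)) := by
          calc (U : ℝ) * (2 * (H * √(H : ℝ)) * (X : ℝ) ^ (1 / 4 : ℝ))
              ≤ (X : ℝ) ^ (1 / 4 : ℝ) * (2 * (H * √(H : ℝ)) * (X : ℝ) ^ (1 / 4 : ℝ)) := by gcongr
            _ = 2 * (H * √(H : ℝ)) * ((X : ℝ) ^ (1 / 4 : ℝ) * (X : ℝ) ^ (1 / 4 : ℝ)) := by ring
            _ = 2 * (H * √(H : ℝ)) * (X : ℝ) ^ (1 / 2 : ℝ) := by
                rw [← Real.rpow_add (by linarith)]
                norm_num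
            _ ≤ 2 * (H * (√(H : ℝ) * √(H : ℝ))) * (X : ℝ) ^ (1 / 2 : ℝ) := by
                have : √(H : ℝ) ≤ √(H : ℝ) * √(H : ℝ) := by nlinarith
                gcongr
            _ = 2 * ((H : ℝ) ^ 2 * (X : ℝ) ^ (1 / 2 : ℝ)) := by rw [hsH]; ring
        have h4 : √(H : ℝ) * (X : ℝ) ^ (3 / 4 : ℝ) * ∑ m ∈ Icc 1 U, (1 : ℝ) / m ≤
            2 * L * (√(H : ℝ) * (X : ℝ) ^ (7 / 8 : ℝ)) := by
          have h5 : (X : ℝ) ^ (3 / 4 : ℝ) ≤ (X : ℝ) ^ (7 / 8 : ℝ) :=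
            Real.rpow_le_rpow_of_exponent_le hXr (by norm_num)
          calc √(H : ℝ) * (X : ℝ) ^ (3 / 4 : ℝ) * ∑ m ∈ Icc 1 U, (1 : ℝ) / m
              ≤ √(H : ℝ) * (X : ℝ) ^ (7 / 8 : ℝ) * L := by gcongr
            _ ≤ 2 * L * (√(H : ℝ) * (X : ℝ) ^ (7 / 8 : ℝ)) := by
                have : 0 ≤ √(H : ℝ) * (X : ℝ) ^ (7 / 8 : ℝ) * L := by positivity
                nlinarith
        calc C₂ * (1 + Real.log X) * ((U : ℝ) * (2 * (H * √(H : ℝ)) * (X : ℝ) ^ (1 / 4 : ℝ)) +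
              √(H : ℝ) * (X : ℝ) ^ (3 / 4 : ℝ) * ∑ m ∈ Icc 1 U, (1 : ℝ) / m)
            ≤ C₂ * L * (2 * ((H : ℝ) ^ 2 * (X : ℝ) ^ (1 / 2 : ℝ)) +
              2 * L * (√(H : ℝ) * (X : ℝ) ^ (7 / 8 : ℝ))) := by
              have : 1 + Real.log X ≤ L := by rw [hL]; linarith
              gcongr
          _ ≤ C₂ * L * (2 * L * ((H : ℝ) ^ 2 * (X : ℝ) ^ (1 / 2 : ℝ)) +
              2 * L * (√(H : ℝ) * (X : ℝ) ^ (7 / 8 : ℝ))) := by
              have : 2 * ((H : ℝ) ^ 2 * (X : ℝ) ^ (1 / 2 : ℝ)) ≤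
                  2 * L * ((H : ℝ) ^ 2 * (X : ℝ) ^ (1 / 2 : ℝ)) := by
                have h6 : 0 ≤ (H : ℝ) ^ 2 * (X : ℝ) ^ (1 / 2 : ℝ) := by positivity
                nlinarith
              gcongr
          _ = 2 * C₂ * L ^ 2 * Q := by rw [hQ]; ring
      have hlogL : 1 + Real.log X ≤ L := by rw [hL]; linarith
      calc 20 * (1 + Real.log (4 * X)) ^ 4 * T * (C₃ * (1 + Real.log X) * Q) +
            3 * (1 + Real.log (4 * X)) * ∑ m ∈ Icc 1 U, C₂ * (1 + Real.log X) *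
              (2 * (H * √(H : ℝ)) * (X : ℝ) ^ (1 / 4 : ℝ) + √(H : ℝ) * (X : ℝ) ^ (3 / 4 : ℝ) * (1 / m))
          ≤ 20 * L ^ 4 * T * (C₃ * L * Q) + 3 * L * (2 * C₂ * L ^ 2 * Q) := by
            rw [← hL]
            gcongr
        _ = 20 * C₃ * (T * L ^ 5) * Q + 6 * C₂ * (L ^ 3) * Q := by ring
        _ ≤ 20 * C₃ * (T * L ^ 5) * Q + 6 * C₂ * (T * L ^ 5) * Q := by
            have h7 : L ^ 3 ≤ T * L ^ 5 := by
              calc L ^ 3 ≤ L ^ 5 := pow_le_pow_right₀ hL1 (by norm_num)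
                _ = 1 * L ^ 5 := (one_mul _).symm
                _ ≤ T * L ^ 5 := by gcongr
            gcongr
        _ ≤ (20 * C₃ + 6 * C₂ + 4) * (T * L ^ 5) * Q := by
            have h8 : 0 ≤ (T * L ^ 5) * Q := by positivity
            nlinarith
    · push Not at hcase
      have hcr : (X : ℝ) ≤ 4 * (H : ℝ) ^ 2 := by exact_mod_cast hcase.le
      have h1 : ‖∑ n ∈ Ioc X X', ((ArithmeticFunction.vonMangoldt n : ℝ) : ℂ) * EE H c n‖ ≤
          ∑ n ∈ Ioc X X', L * H := by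
        refine (norm_sum_le _ _).trans (Finset.sum_le_sum ?_)
        intro n hn
        rw [Finset.mem_Ioc] at hn
        rw [norm_mul, Complex.norm_real, Real.norm_of_nonneg ArithmeticFunction.vonMangoldt_nonneg]
        have h2 : ArithmeticFunction.vonMangoldt n ≤ L := by
          refine ArithmeticFunction.vonMangoldt_le_log.trans ?_
          rw [hL]
          have h3 : Real.log n ≤ Real.log (4 * X) := by
            apply Real.log_le_log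
            · have : 0 < n := by omega
              exact_mod_cast this
            · have : n ≤ 2 * X := by omega
              have : (n : ℝ) ≤ 2 * X := by exact_mod_cast this
              linarith
          linarith
        exact mul_le_mul h2 (norm_EE_le H c hc n) (norm_nonneg _) (by linarith)
      rw [Finset.sum_const, Nat.card_Ioc, nsmul_eq_mul] at h1
      refine h1.trans ?_
      have h2 : ((X' - X : ℕ) : ℝ) ≤ X := by
        have : X' - X ≤ X := by omega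
        exact_mod_cast this
      have h3 : (H : ℝ) ≤ (X : ℝ) ^ (1 / 2 : ℝ) := by
        rw [← Real.sqrt_eq_rpow]
        exact Real.le_sqrt_of_sq_le hHXr
      have hLT : L ≤ T * L ^ 5 := by
        calc L = 1 * L ^ 1 := by ring
          _ ≤ T * L ^ 5 := by
            apply mul_le_mul hT1 (pow_le_pow_right₀ hL1 (by norm_num)) (by positivity) (by linarith)
      calc ((X' - X : ℕ) : ℝ) * (L * H) ≤ (4 * (H : ℝ) ^ 2) * (L * (X : ℝ) ^ (1 / 2 : ℝ)) := by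
            apply mul_le_mul (h2.trans hcr) _ (by positivity) (by positivity)
            gcongr
        _ = 4 * L * ((H : ℝ) ^ 2 * (X : ℝ) ^ (1 / 2 : ℝ)) := by ring
        _ ≤ 4 * (T * L ^ 5) * Q := by
            have : (H : ℝ) ^ 2 * (X : ℝ) ^ (1 / 2 : ℝ) ≤ Q := by
              rw [hQ]
              have : 0 ≤ √(H : ℝ) * (X : ℝ) ^ (7 / 8 : ℝ) := by positivity
              linarith
            gcongr
        _ ≤ (20 * C₃ + 6 * C₂ + 4) * (T * L ^ 5) * Q := by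
            have h8 : 0 ≤ (T * L ^ 5) * Q := by positivity
            nlinarith
  have habs := log_absorb ε C₁ hε hC₁ X hX
  rw [← hTd, ← hL] at habs
  rw [← hQ]
  calc ‖∑ n ∈ Ioc X X', ((ArithmeticFunction.vonMangoldt n : ℝ) : ℂ) * EE H c n‖
      ≤ (20 * C₃ + 6 * C₂ + 4) * (T * L ^ 5) * Q := main
    _ ≤ (20 * C₃ + 6 * C₂ + 4) * ((C₁ + 1) * (1 + 10 / ε) ^ 5 * (4 : ℝ) ^ ε * (X : ℝ) ^ ε) * Q := by
        gcongr
    _ = (20 * C₃ + 6 * C₂ + 4) * ((C₁ + 1) * (1 + 10 / ε) ^ 5 * (4 : ℝ) ^ ε) * (X : ℝ) ^ ε * Q := by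
        ring

end Run7.h994.BP
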